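import Pool.Agent.W546.ST.Defs
import Pool.Agent.Helper82.OS.D0

/-!
# ST-NFP: every normal form can be rotated to an adapted plane
-/

set_option autoImplicit false

open Matrix MeasureTheory Set Metric Filter Topology
open scoped ENNReal

namespace Pool.Agent.W253.ST

open Pool.Agent.Helper82.OS Pool.Agent.W546.ST

/-! ## orthogonal matrices -/

theorem exists_orth {n : ℕ} (w0 : Fin (n + 1) → ℝ) :
    ∃ (O : Matrix (Fin (n + 1)) (Fin (n + 1)) ℝ) (s : ℝ), O * Oᵀ = 1 ∧
      O *ᵥ w0 = s • (Pi.single 0 1 : Fin (n + 1) → ℝ) := by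
  classical
  by_cases h0 : w0 = 0
  · refine ⟨1, 0, by simp, ?_⟩
    rw [h0]
    simp
  set X : E (n + 1) := WithLp.toLp 2 w0 with hX
  have hX0 : X ≠ 0 := by
    intro h
    apply h0
    have := congrArg WithLp.ofLp h
    simpa [hX] using this
  have hXn : ‖X‖ ≠ 0 := norm_ne_zero_iff.2 hX0
  have hc : ‖(‖X‖⁻¹ • X)‖ = 1 := by
    rw [norm_smul, norm_inv, norm_norm, inv_mul_cancel₀ hXn]
  have hfr : Module.finrank ℝ (E (n + 1)) = Fintype.card (Fin (n + 1)) := by simp
  have horth : Orthonormal ℝ ((({(0 : Fin (n + 1))} : Set (Fin (n + 1)))).domRestrict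
      (fun _ : Fin (n + 1) => ‖X‖⁻¹ • X)) := by
    refine ⟨fun i => hc, ?_⟩
    intro i j hij
    exact absurd (Subsingleton.elim i j) hij
  obtain ⟨b, hb⟩ := horth.exists_orthonormalBasis_extension_of_card_eq hfr
  have hb0 : b 0 = ‖X‖⁻¹ • X := hb 0 rfl
  have hXb : X = ‖X‖ • b 0 := by
    rw [hb0, smul_smul, mul_inv_cancel₀ hXn, one_smul]
  have hin : ∀ u v : E (n + 1), inner ℝ u v = u.ofLp ⬝ᵥ v.ofLp := by
    intro u v
    rw [EuclideanSpace.inner_eq_star_dotProduct]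
    simp only [star_trivial]
    exact dotProduct_comm _ _
  refine ⟨Matrix.of fun i => (b i).ofLp, ‖X‖, ?_, ?_⟩
  · ext i j
    rw [Matrix.mul_apply']
    have h1 : (Matrix.of fun i => (b i).ofLp) i ⬝ᵥ
        (fun k => (Matrix.of fun i => (b i).ofLp)ᵀ k j) = inner ℝ (b i) (b j) := by
      rw [hin]
      rfl
    rw [h1, Matrix.one_apply]
    exact orthonormal_iff_ite.1 b.orthonormal i j
  · funext i
    have h1 : ((Matrix.of fun i => (b i).ofLp) *ᵥ w0) i = inner ℝ (b i) X := by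
      rw [hin]
      rfl
    rw [h1, hXb, real_inner_smul_right, orthonormal_iff_ite.1 b.orthonormal i 0, norm_smul,
      norm_norm, b.norm_eq_one, mul_one]
    simp only [Pi.smul_apply, Pi.single_apply, smul_eq_mul]

/-! ## the matrices -/

section mats
variable {m : ℕ}

/-- the Gram matrix of the data -/
noncomputable def GG (A C : Matrix (Fin m) (Fin m) ℝ) (w : Fin m → ℝ) (y t : ℝ) (f : Fin m → ℝ) :
    Matrix (Fin m) (Fin m) ℝ :=
  (y • A + t • C) * (y • A + t • C)ᵀ + vecMulVec (A *ᵥ f + t • w) (A *ᵥ f + t • w) +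
    vecMulVec (C *ᵥ f - y • w) (C *ᵥ f - y • w)

theorem conj_vec (O : Matrix (Fin m) (Fin m) ℝ) (u : Fin m → ℝ) :
    O * vecMulVec u u * Oᵀ = vecMulVec (O *ᵥ u) (O *ᵥ u) := by
  rw [mul_vecMulVec, vecMulVec_mul, vecMul_transpose]

theorem conj_add (O X Y Z : Matrix (Fin m) (Fin m) ℝ) :
    O * (X + Y + Z) * Oᵀ = O * X * Oᵀ + O * Y * Oᵀ + O * Z * Oᵀ := by
  simp only [Matrix.mul_add, Matrix.add_mul]

theorem GG_conj (O A C : Matrix (Fin m) (Fin m) ℝ) (w : Fin m → ℝ) (y t : ℝ) (f : Fin m → ℝ) :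
    GG (O * A) (O * C) (O *ᵥ w) y t f = O * GG A C w y t f * Oᵀ := by
  unfold GG
  rw [conj_add, conj_vec, conj_vec]
  congr 1
  · congr 1
    · have h1 : y • (O * A) + t • (O * C) = O * (y • A + t • C) := by
        rw [Matrix.mul_add, Matrix.mul_smul, Matrix.mul_smul]
      rw [h1, transpose_mul]
      simp only [Matrix.mul_assoc]
    · have h1 : (O * A) *ᵥ f + t • (O *ᵥ w) = O *ᵥ (A *ᵥ f + t • w) := by
        rw [mulVec_add, mulVec_mulVec, mulVec_smul]
      rw [h1]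
  · have h1 : (O * C) *ᵥ f - y • (O *ᵥ w) = O *ᵥ (C *ᵥ f - y • w) := by
      rw [mulVec_sub, mulVec_mulVec, mulVec_smul]
    rw [h1]

theorem GG_rot (A C : Matrix (Fin m) (Fin m) ℝ) (w : Fin m → ℝ) (y t : ℝ) (f : Fin m → ℝ)
    {c s : ℝ} (h : c ^ 2 + s ^ 2 = 1) :
    GG A C w (c * y - s * t) (s * y + c * t) f =
      GG (c • A + s • C) (-s • A + c • C) w y t f := by
  unfold GG
  have h1 : (c * y - s * t) • A + (s * y + c * t) • C =
      y • (c • A + s • C) + t • (-s • A + c • C) := by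
    module
  rw [h1, add_assoc, add_assoc]
  congr 1
  set a := A *ᵥ f with ha
  set b := C *ᵥ f with hb
  have h2 : (c • A + s • C) *ᵥ f = c • a + s • b := by
    rw [add_mulVec, smul_mulVec, smul_mulVec]
  have h3 : (-s • A + c • C) *ᵥ f = -s • a + c • b := by
    rw [add_mulVec, smul_mulVec, smul_mulVec]
  rw [h2, h3]
  ext i j
  simp only [Matrix.add_apply, vecMulVec_apply, Pi.add_apply, Pi.sub_apply, Pi.smul_apply,
    smul_eq_mul]
  have e1 : ∀ i, a i + (s * y + c * t) * w i =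
      c * (c * a i + s * b i + t * w i) - s * (-s * a i + c * b i - y * w i) := by
    intro i
    linear_combination (-(a i)) * h
  have e2 : ∀ i, b i - (c * y - s * t) * w i =
      s * (c * a i + s * b i + t * w i) + c * (-s * a i + c * b i - y * w i) := by
    intro i
    linear_combination (-(b i)) * h
  rw [e1, e1, e2, e2]
  linear_combination ((c * a i + s * b i + t * w i) * (c * a j + s * b j + t * w j) +
    (-s * a i + c * b i - y * w i) * (-s * a j + c * b j - y * w j)) * h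

end mats

/-! ## the frame -/

theorem inner_dot {m : ℕ} (u v : E m) : inner ℝ u v = u.ofLp ⬝ᵥ v.ofLp := by
  rw [EuclideanSpace.inner_eq_star_dotProduct]
  simp only [star_trivial]
  exact dotProduct_comm _ _

section frame
variable {n : ℕ} (F : Fr (n + 1)) (ι : E (n + 1) →ₗᵢ[ℝ] E (n + 1 + 1))
  (a b : Fin (n + 1) → E (n + 1)) (wt : Fin (n + 1) → ℝ)

/-- the data of the frame -/
structure Dat : Prop where
  hι : ∀ y, inner ℝ F.x (ι y) = 0
  ha : ∀ j, F.c j • F.q j = wt j • F.x + ι (a j)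
  hb : ∀ j, F.s j • F.g j = ι (b j)

theorem exists_dat (hι : ∀ y, inner ℝ F.x (ι y) = 0) (hs : ∀ z, inner ℝ F.x z = 0 → ∃ y, ι y = z) :
    ∃ a b wt, Dat F ι a b wt := by
  have h1 : ∀ j, ∃ y, ι y = F.c j • F.q j - (inner ℝ F.x (F.c j • F.q j) : ℝ) • F.x := by
    intro j
    apply hs
    rw [inner_sub_right, real_inner_smul_right _ F.x, real_inner_self_eq_norm_sq, F.hx]
    ring
  have h2 : ∀ j, ∃ y, ι y = F.s j • F.g j := by
    intro j
    apply hs
    rw [real_inner_smul_right, real_inner_comm, F.hgx, mul_zero]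
  choose a ha using h1
  choose b hb using h2
  refine ⟨a, b, fun j => inner ℝ F.x (F.c j • F.q j), hι, fun j => ?_, fun j => (hb j).symm⟩
  rw [ha]
  module

variable {F ι a b wt}

theorem Dat.hι' (D : Dat F ι a b wt) (y : E (n + 1)) : inner ℝ (ι y) F.x = 0 := by
  rw [real_inner_comm]
  exact D.hι y

theorem Dat.on (D : Dat F ι a b wt) (i j : Fin (n + 1)) :
    inner ℝ (b i) (b j) + inner ℝ (a i) (a j) + wt i * wt j = if i = j then (1 : ℝ) else 0 := by
  have h1 : inner ℝ (b i) (b j) = F.s i * F.s j * inner ℝ (F.g i) (F.g j) := by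
    rw [← ι.inner_map_map, ← D.hb, ← D.hb, real_inner_smul_left, real_inner_smul_right]
    ring
  have h2 : inner ℝ (a i) (a j) + wt i * wt j = F.c i * F.c j * inner ℝ (F.q i) (F.q j) := by
    have h3 : F.c i * F.c j * inner ℝ (F.q i) (F.q j) =
        inner ℝ (F.c i • F.q i) (F.c j • F.q j) := by
      rw [real_inner_smul_left, real_inner_smul_right]
      ring
    rw [h3, D.ha, D.ha, inner_add_left, inner_add_right, inner_add_right, ι.inner_map_map,
      real_inner_smul_left, real_inner_smul_right, real_inner_self_eq_norm_sq, F.hx,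
      real_inner_smul_left, D.hι, real_inner_smul_right, D.hι']
    ring
  rw [add_assoc, h1, h2]
  rw [orthonormal_iff_ite.1 F.hg i j, orthonormal_iff_ite.1 F.hq i j]
  by_cases hij : i = j
  · subst hij
    simp only [if_true, mul_one]
    have := F.hcs i
    linarith
  · simp [hij]

theorem Dat.wx (D : Dat F ι a b wt) (y : ℝ) (f : E (n + 1)) :
    inner ℝ (y • F.x + ι f) F.x = y := by
  rw [inner_add_left, real_inner_smul_left, real_inner_self_eq_norm_sq, F.hx, real_inner_comm,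
    D.hι]
  ring

theorem Dat.wg (D : Dat F ι a b wt) (y : ℝ) (f : E (n + 1)) (j : Fin (n + 1)) :
    F.s j * inner ℝ (y • F.x + ι f) (F.g j) = inner ℝ f (b j) := by
  rw [← real_inner_smul_right, D.hb, inner_add_left, real_inner_smul_left, D.hι,
    ι.inner_map_map]
  ring

theorem Dat.wq (D : Dat F ι a b wt) (y : ℝ) (f : E (n + 1)) (j : Fin (n + 1)) :
    F.lv (y • F.x + ι f) j = y * wt j + inner ℝ f (a j) := by
  unfold Fr.lv
  rw [← real_inner_smul_right, D.ha, inner_add_right, real_inner_smul_right, D.wx,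
    inner_add_left, real_inner_smul_left, D.hι, ι.inner_map_map]
  ring

theorem Dat.mv (D : Dat F ι a b wt) (t y : ℝ) (f : E (n + 1)) (j : Fin (n + 1)) :
    F.Mv t (y • F.x + ι f) j =
      ι (t • a j + y • b j) + (t * wt j - inner ℝ f (b j)) • F.x := by
  unfold Fr.Mv
  rw [D.wx, smul_sub, smul_smul, smul_smul, D.wg, mul_smul, D.ha, mul_comm (F.s j) y, mul_smul,
    D.hb, map_add, map_smul, map_smul]
  module

theorem Dat.gm (D : Dat F ι a b wt) (t y : ℝ) (f : E (n + 1)) :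
    F.Gm t (y • F.x + ι f) =
      GG (Matrix.of fun j => (b j).ofLp) (Matrix.of fun j => (a j).ofLp) (-wt) y t f.ofLp := by
  ext i j
  have h1 : F.Gm t (y • F.x + ι f) i j = inner ℝ (F.Mv t (y • F.x + ι f) i)
    (F.Mv t (y • F.x + ι f) j) + F.lv (y • F.x + ι f) i * F.lv (y • F.x + ι f) j := rfl
  rw [h1, D.mv, D.mv, D.wq, D.wq]
  have h2 : inner ℝ (ι (t • a i + y • b i) + (t * wt i - inner ℝ f (b i)) • F.x)
      (ι (t • a j + y • b j) + (t * wt j - inner ℝ f (b j)) • F.x) =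
      inner ℝ (t • a i + y • b i) (t • a j + y • b j) +
        (t * wt i - inner ℝ f (b i)) * (t * wt j - inner ℝ f (b j)) := by
    rw [inner_add_left, inner_add_right, inner_add_right, ι.inner_map_map,
      real_inner_smul_left, real_inner_smul_right, real_inner_smul_left, real_inner_smul_right,
      D.hι, D.hι', real_inner_self_eq_norm_sq, F.hx]
    ring
  rw [h2]
  have h3 : ((y • (Matrix.of fun j => (b j).ofLp) + t • (Matrix.of fun j => (a j).ofLp)) *
      (y • (Matrix.of fun j => (b j).ofLp) + t • (Matrix.of fun j => (a j).ofLp))ᵀ :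
        Matrix (Fin (n + 1)) (Fin (n + 1)) ℝ) i j =
      inner ℝ (t • a i + y • b i) (t • a j + y • b j) := by
    rw [inner_dot, Matrix.mul_apply']
    have h4 : ∀ i, (t • a i + y • b i).ofLp = y • (b i).ofLp + t • (a i).ofLp := by
      intro i
      rw [WithLp.ofLp_add, WithLp.ofLp_smul, WithLp.ofLp_smul]
      exact add_comm _ _
    rw [h4, h4]
    rfl
  have h5 : ((Matrix.of fun j => (b j).ofLp) *ᵥ f.ofLp + t • (-wt)) =
      fun i => inner ℝ f (b i) - t * wt i := by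
    funext k
    rw [inner_dot, dotProduct_comm]
    simp only [Pi.add_apply, Pi.smul_apply, Pi.neg_apply, smul_eq_mul]
    show (b k).ofLp ⬝ᵥ f.ofLp + _ = _
    ring
  have h6 : ((Matrix.of fun j => (a j).ofLp) *ᵥ f.ofLp - y • (-wt)) =
      fun i => inner ℝ f (a i) + y * wt i := by
    funext k
    rw [inner_dot, dotProduct_comm]
    simp only [Pi.sub_apply, Pi.smul_apply, Pi.neg_apply, smul_eq_mul]
    show (a k).ofLp ⬝ᵥ f.ofLp - _ = _
    ring
  unfold GG
  rw [Matrix.add_apply, Matrix.add_apply, h3, h5, h6, vecMulVec_apply, vecMulVec_apply]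
  ring

end frame

/-! ## rotations of the plane -/

theorem exists_half (p r m : ℝ) : ∃ c s : ℝ, c ^ 2 + s ^ 2 = 1 ∧
    (c ^ 2 - s ^ 2) * m + c * s * (r - p) = 0 ∧
    2 * (c ^ 2 * p + 2 * (c * s) * m + s ^ 2 * r) ≤ p + r := by
  set R := Real.sqrt (((p - r) / 2) ^ 2 + m ^ 2) with hR
  have hR2 : R ^ 2 = ((p - r) / 2) ^ 2 + m ^ 2 := Real.sq_sqrt (by positivity)
  have hRn : 0 ≤ R := Real.sqrt_nonneg _
  rcases hRn.eq_or_lt with h0 | h0
  · rw [← h0] at hR2
    have h1 : m = 0 := by nlinarith [sq_nonneg ((p - r) / 2), sq_nonneg m]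
    have h2 : p - r = 0 := by nlinarith [sq_nonneg ((p - r) / 2), sq_nonneg m]
    refine ⟨1, 0, by norm_num, ?_, ?_⟩
    · rw [h1]; ring
    · rw [h1]; nlinarith
  · set X := -((p - r) / 2) / R with hX
    set Y := -m / R with hY
    have hXR : X * R = -((p - r) / 2) := by rw [hX]; field_simp
    have hYR : Y * R = -m := by rw [hY]; field_simp
    have hXY : X ^ 2 + Y ^ 2 = 1 := by
      have : (X ^ 2 + Y ^ 2) * R ^ 2 = 1 * R ^ 2 := by
        calc (X ^ 2 + Y ^ 2) * R ^ 2 = (X * R) ^ 2 + (Y * R) ^ 2 := by ring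
          _ = 1 * R ^ 2 := by rw [hXR, hYR, hR2]; ring
      exact mul_right_cancel₀ (by positivity) this
    have hX1 : X ≤ 1 := by nlinarith [sq_nonneg Y]
    have hX2 : -1 ≤ X := by nlinarith [sq_nonneg Y]
    obtain ⟨c, s, h1, h2, h3⟩ : ∃ c s : ℝ, c ^ 2 = (1 + X) / 2 ∧ s ^ 2 = (1 - X) / 2 ∧
        c * s = Y / 2 := by
      have hc : Real.sqrt ((1 + X) / 2) ^ 2 = (1 + X) / 2 := Real.sq_sqrt (by linarith)
      have hs : Real.sqrt ((1 - X) / 2) ^ 2 = (1 - X) / 2 := Real.sq_sqrt (by linarith)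
      have hcs : Real.sqrt ((1 + X) / 2) * Real.sqrt ((1 - X) / 2) = |Y| / 2 := by
        rw [← Real.sqrt_mul (by linarith)]
        have : (1 + X) / 2 * ((1 - X) / 2) = (Y / 2) ^ 2 := by nlinarith
        rw [this, Real.sqrt_sq_eq_abs, abs_div]
        norm_num
      rcases le_total 0 Y with hY0 | hY0
      · refine ⟨_, _, hc, hs, ?_⟩
        rw [hcs, abs_of_nonneg hY0]
      · refine ⟨Real.sqrt ((1 + X) / 2), -Real.sqrt ((1 - X) / 2), hc, ?_, ?_⟩
        · rw [neg_sq]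
          exact hs
        · rw [mul_neg, hcs, abs_of_nonpos hY0]
          ring
    refine ⟨c, s, by rw [h1, h2]; ring, ?_, ?_⟩
    · rw [h1, h2, h3]
      have h4 : X * m - Y * ((p - r) / 2) = 0 := by
        have : (X * m - Y * ((p - r) / 2)) * R = 0 := by
          calc (X * m - Y * ((p - r) / 2)) * R = (X * R) * m - (Y * R) * ((p - r) / 2) := by ring
            _ = 0 := by rw [hXR, hYR]; ring
        exact (mul_eq_zero.1 this).resolve_right h0.ne'
      linarith
    · rw [h1, h2, h3]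
      have h4 : X * (p - r) + 2 * Y * m ≤ 0 := by
        have h5 : (X * (p - r) + 2 * Y * m) * R = -2 * R ^ 2 := by
          calc (X * (p - r) + 2 * Y * m) * R = (X * R) * (p - r) + 2 * (Y * R) * m := by ring
            _ = -2 * R ^ 2 := by rw [hXR, hYR, hR2]; ring
        have h6 : X * (p - r) + 2 * Y * m = -2 * R := by
          have : (X * (p - r) + 2 * Y * m) * R = (-2 * R) * R := by rw [h5]; ring
          exact mul_right_cancel₀ h0.ne' this
        rw [h6]
        linarith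
      linarith

theorem rot_mp {c s : ℝ} (h : c ^ 2 + s ^ 2 = 1) :
    MeasurePreserving (fun p : ℝ × ℝ => (c * p.1 - s * p.2, s * p.1 + c * p.2))
      (volume.prod volume) (volume.prod volume) := by
  have hdet : LinearMap.det (Matrix.toLin (Module.Basis.finTwoProd ℝ) (Module.Basis.finTwoProd ℝ)
      !![c, -s; s, c]) = 1 := by
    rw [LinearMap.det_toLin, Matrix.det_fin_two_of]
    linear_combination h
  have h1 := MeasureTheory.Measure.map_linearMap_addHaar_eq_smul_addHaar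
    (volume : Measure (ℝ × ℝ)) (f := Matrix.toLin (Module.Basis.finTwoProd ℝ)
      (Module.Basis.finTwoProd ℝ) !![c, -s; s, c]) (by rw [hdet]; exact one_ne_zero)
  rw [hdet] at h1
  have h2 : (fun p : ℝ × ℝ => (c * p.1 - s * p.2, s * p.1 + c * p.2)) =
      ⇑(Matrix.toLin (Module.Basis.finTwoProd ℝ) (Module.Basis.finTwoProd ℝ)
        !![c, -s; s, c]) := by
    funext p
    rw [Matrix.toLin_finTwoProd_apply]
    ext
    · show _ = c * p.1 + -s * p.2
      ring
    · rfl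
  refine ⟨by fun_prop, ?_⟩
  rw [h2]
  rw [inv_one, abs_one, ENNReal.ofReal_one, one_smul] at h1
  exact h1

/-! ## the integrals -/

section ints
variable {m : ℕ}

/-- the integrand -/
noncomputable def Phi (A C : Matrix (Fin m) (Fin m) ℝ) (w : Fin m → ℝ) (y t : ℝ) (f : E m) :
    ℝ≥0∞ :=
  ENNReal.ofReal (Real.sqrt (GG A C w y t f.ofLp).det * (gt y * gt t * gw f))

theorem cont_GG (A C : Matrix (Fin m) (Fin m) ℝ) (w : Fin m → ℝ) :
    Continuous fun p : (ℝ × ℝ) × E m => GG A C w p.1.1 p.1.2 p.2.ofLp := by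
  unfold GG
  fun_prop

theorem meas_Phi (A C : Matrix (Fin m) (Fin m) ℝ) (w : Fin m → ℝ) :
    Measurable fun p : (ℝ × ℝ) × E m => Phi A C w p.1.1 p.1.2 p.2 := by
  unfold Phi
  refine ENNReal.measurable_ofReal.comp (Continuous.measurable ?_)
  refine Continuous.mul (Real.continuous_sqrt.comp ?_) ?_
  · exact Continuous.matrix_det (cont_GG A C w)
  · unfold gt gw
    fun_prop

theorem meas_Psi (A C : Matrix (Fin m) (Fin m) ℝ) (w : Fin m → ℝ) :
    Measurable fun p : ℝ × ℝ => ∫⁻ f : E m, Phi A C w p.1 p.2 f :=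
  (meas_Phi A C w).lintegral_prod_right'

theorem Phi_conj {O : Matrix (Fin m) (Fin m) ℝ} (hO : O * Oᵀ = 1) (A C : Matrix (Fin m) (Fin m) ℝ)
    (w : Fin m → ℝ) (y t : ℝ) (f : E m) :
    Phi (O * A) (O * C) (O *ᵥ w) y t f = Phi A C w y t f := by
  unfold Phi
  have h1 : (O * GG A C w y t f.ofLp * Oᵀ).det = (GG A C w y t f.ofLp).det := by
    have h2 := congrArg Matrix.det hO
    rw [det_mul, det_transpose, det_one] at h2
    rw [det_mul, det_mul, det_transpose]
    linear_combination (GG A C w y t f.ofLp).det * h2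
  rw [GG_conj, h1]

theorem Phi_rot (A C : Matrix (Fin m) (Fin m) ℝ) (w : Fin m → ℝ) (y t : ℝ) (f : E m)
    {c s : ℝ} (h : c ^ 2 + s ^ 2 = 1) :
    Phi A C w (c * y - s * t) (s * y + c * t) f =
      Phi (c • A + s • C) (-s • A + c • C) w y t f := by
  unfold Phi
  rw [GG_rot A C w y t f.ofLp h]
  have h1 : gt (c * y - s * t) * gt (s * y + c * t) = gt y * gt t := by
    unfold gt
    rw [← Real.exp_add, ← Real.exp_add]
    congr 1
    linear_combination (-(y ^ 2 + t ^ 2) / 2) * h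
  rw [h1]

end ints

theorem cont_Gm {N : ℕ} (F : Fr N) : Continuous fun p : E (N + 1) × ℝ => F.Gm p.2 p.1 := by
  refine continuous_matrix fun i j => ?_
  show Continuous fun p : E (N + 1) × ℝ =>
    (inner ℝ (F.Mv p.2 p.1 i) (F.Mv p.2 p.1 j) : ℝ) + F.lv p.1 i * F.lv p.1 j
  unfold Fr.Mv Fr.lv
  fun_prop

theorem meas_F {N : ℕ} (F : Fr N) :
    Measurable fun p : E (N + 1) × ℝ => ENNReal.ofReal (F.FF p.2 p.1 * gt p.2 * gw p.1) := by
  refine ENNReal.measurable_ofReal.comp (Continuous.measurable ?_)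
  unfold Fr.FF
  refine Continuous.mul (Continuous.mul (Real.continuous_sqrt.comp ?_) ?_) ?_
  · exact Continuous.matrix_det (cont_Gm F)
  · unfold gt
    fun_prop
  · unfold gw
    fun_prop

section fin
variable {n : ℕ} {F : Fr (n + 1)} {ι : E (n + 1) →ₗᵢ[ℝ] E (n + 1 + 1)}
  {a b : Fin (n + 1) → E (n + 1)} {wt : Fin (n + 1) → ℝ}

theorem Dat.phi (D : Dat F ι a b wt) (y t : ℝ) (f : E (n + 1)) :
    ENNReal.ofReal (F.FF t (y • F.x + ι f) * gt t * gw (y • F.x + ι f)) =
      Phi (Matrix.of fun j => (b j).ofLp) (Matrix.of fun j => (a j).ofLp) (-wt) y t f := by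
  unfold Phi Fr.FF
  rw [D.gm]
  have h1 : gw (y • F.x + ι f) = gt y * gw f := by
    unfold gw gt
    rw [← Real.exp_add]
    congr 1
    have h2 : ‖y • F.x + ι f‖ ^ 2 = y ^ 2 + ‖f‖ ^ 2 := by
      rw [norm_add_sq_real, real_inner_smul_left, D.hι, norm_smul, F.hx, ι.norm_map,
        Real.norm_eq_abs, mul_one, sq_abs]
      ring
    rw [h2]
    ring
  rw [h1]
  congr 1
  ring

theorem gfr_eq (D : Dat F ι a b wt)
    (hmp : MeasurePreserving (fun p : ℝ × E (n + 1) => p.1 • F.x + ι p.2)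
      (volume.prod volume) volume) :
    GFr F = ∫⁻ y : ℝ, ∫⁻ t : ℝ, ∫⁻ f : E (n + 1),
      Phi (Matrix.of fun j => (b j).ofLp) (Matrix.of fun j => (a j).ofLp) (-wt) y t f := by
  have hH : Measurable fun w : E (n + 1 + 1) =>
      ∫⁻ t : ℝ, ENNReal.ofReal (F.FF t w * gt t * gw w) := (meas_F F).lintegral_prod_right'
  unfold GFr
  rw [← hmp.lintegral_comp hH]
  refine (lintegral_prod _ (hH.comp hmp.measurable).aemeasurable).trans ?_
  refine lintegral_congr fun y => ?_
  have h0 : ∀ f : E (n + 1), ∫⁻ t : ℝ,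
      ENNReal.ofReal (F.FF t (y • F.x + ι f) * gt t * gw (y • F.x + ι f)) =
      ∫⁻ t : ℝ, Phi (Matrix.of fun j => (b j).ofLp) (Matrix.of fun j => (a j).ofLp) (-wt) y t f :=
    fun f => lintegral_congr fun t => D.phi y t f
  refine (lintegral_congr h0).trans ?_
  refine lintegral_lintegral_swap (μ := (volume : Measure (E (n + 1))))
    (ν := (volume : Measure ℝ)) (Measurable.aemeasurable ?_)
  have h1 := (meas_Phi (Matrix.of fun j => (b j).ofLp) (Matrix.of fun j => (a j).ofLp) (-wt)).comp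
    (show Measurable fun p : E (n + 1) × ℝ => (((y, p.2), p.1) : (ℝ × ℝ) × E (n + 1)) by fun_prop)
  exact h1

theorem gj_eq (P : PA n) : P.GJ = ∫⁻ y : ℝ, ∫⁻ t : ℝ, ∫⁻ f : E (n + 1),
    Phi P.A P.C (P.s • (Pi.single 0 1 : Fin (n + 1) → ℝ)) y t f := by
  unfold PA.GJ
  refine lintegral_congr fun y => lintegral_congr fun t => lintegral_congr fun f => ?_
  unfold Phi PA.J2 GG PA.M PA.va PA.vb
  rw [smul_smul, smul_smul]

theorem rot_int (A C : Matrix (Fin (n + 1)) (Fin (n + 1)) ℝ) (w : Fin (n + 1) → ℝ)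
    {c s : ℝ} (h : c ^ 2 + s ^ 2 = 1) :
    ∫⁻ y : ℝ, ∫⁻ t : ℝ, ∫⁻ f : E (n + 1), Phi A C w y t f =
      ∫⁻ y : ℝ, ∫⁻ t : ℝ, ∫⁻ f : E (n + 1),
        Phi (c • A + s • C) (-s • A + c • C) w y t f := by
  have h1 := lintegral_prod (μ := (volume : Measure ℝ)) (ν := (volume : Measure ℝ))
    (fun p : ℝ × ℝ => ∫⁻ f : E (n + 1), Phi A C w p.1 p.2 f) (meas_Psi A C w).aemeasurable
  have h2 := lintegral_prod (μ := (volume : Measure ℝ)) (ν := (volume : Measure ℝ))
    (fun p : ℝ × ℝ => ∫⁻ f : E (n + 1), Phi (c • A + s • C) (-s • A + c • C) w p.1 p.2 f)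
    (meas_Psi _ _ w).aemeasurable
  simp only at h1 h2
  rw [← h1, ← h2, ← (rot_mp h).lintegral_comp (meas_Psi A C w)]
  refine lintegral_congr fun p => lintegral_congr fun f => ?_
  exact Phi_rot A C w p.1 p.2 f h

end fin

/-! ## the algebra of the planes -/

section alg
variable {n : ℕ}

theorem single_sq (s : ℝ) :
    vecMulVec (s • (Pi.single 0 1 : Fin (n + 1) → ℝ)) (s • (Pi.single 0 1 : Fin (n + 1) → ℝ)) =
      Matrix.single 0 0 (s ^ 2) := by
  ext i j
  rw [vecMulVec_apply, Matrix.single_apply]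
  simp only [Pi.smul_apply, Pi.single_apply, smul_eq_mul]
  by_cases hi : i = 0
  · by_cases hj : j = 0
    · simp [hi, hj, sq]
    · have : ¬ (0 = j) := fun h => hj h.symm
      simp [hi, hj, this]
  · have : ¬ (0 = i) := fun h => hi h.symm
    simp [hi, this]

theorem rot_gram (A C : Matrix (Fin (n + 1)) (Fin (n + 1)) ℝ) {c s : ℝ} (h : c ^ 2 + s ^ 2 = 1) :
    (c • A + s • C) * (c • A + s • C)ᵀ + (-s • A + c • C) * (-s • A + c • C)ᵀ =
      A * Aᵀ + C * Cᵀ := by
  simp only [transpose_add, transpose_smul, Matrix.add_mul, Matrix.mul_add, Matrix.smul_mul,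
    Matrix.mul_smul]
  have h2 : (1 : ℝ) = c ^ 2 + s ^ 2 := h.symm
  have h3 : A * Aᵀ + C * Cᵀ = (c ^ 2 + s ^ 2) • (A * Aᵀ) + (c ^ 2 + s ^ 2) • (C * Cᵀ) := by
    rw [h, one_smul, one_smul]
  rw [h3]
  module

theorem gram_dot (A C : Matrix (Fin (n + 1)) (Fin (n + 1)) ℝ) {s : ℝ}
    (h : A * Aᵀ + C * Cᵀ + Matrix.single 0 0 (s ^ 2) = 1) (j : Fin n) :
    A j.succ ⬝ᵥ A j.succ + C j.succ ⬝ᵥ C j.succ = 1 := by
  have h1 := congrFun (congrFun h j.succ) j.succ
  rw [Matrix.add_apply, Matrix.add_apply, Matrix.one_apply_eq, Matrix.single_apply,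
    Matrix.mul_apply', Matrix.mul_apply'] at h1
  have h2 : ¬ ((0 : Fin (n + 1)) = j.succ ∧ (0 : Fin (n + 1)) = j.succ) := by
    rintro ⟨h3, -⟩
    exact (Fin.succ_ne_zero j) h3.symm
  rw [if_neg h2, add_zero] at h1
  exact h1

theorem rot_al (A C : Matrix (Fin (n + 1)) (Fin (n + 1)) ℝ) (c s : ℝ) (i : Fin (n + 1)) :
    (c • A + s • C) i ⬝ᵥ (-s • A + c • C) i =
      (c ^ 2 - s ^ 2) * (A i ⬝ᵥ C i) + c * s * (C i ⬝ᵥ C i - A i ⬝ᵥ A i) := by
  have h1 : (c • A + s • C) i = c • A i + s • C i := rfl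
  have h2 : (-s • A + c • C) i = -s • A i + c • C i := rfl
  rw [h1, h2, add_dotProduct, dotProduct_add, dotProduct_add, smul_dotProduct, smul_dotProduct,
    smul_dotProduct, smul_dotProduct, dotProduct_smul, dotProduct_smul, dotProduct_smul,
    dotProduct_smul, dotProduct_comm (C i) (A i)]
  simp only [smul_eq_mul]
  ring

theorem rot_hl (A C : Matrix (Fin (n + 1)) (Fin (n + 1)) ℝ) (c s : ℝ) (i : Fin (n + 1)) :
    (c • A + s • C) i ⬝ᵥ (c • A + s • C) i =
      c ^ 2 * (A i ⬝ᵥ A i) + 2 * (c * s) * (A i ⬝ᵥ C i) + s ^ 2 * (C i ⬝ᵥ C i) := by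
  have h1 : (c • A + s • C) i = c • A i + s • C i := rfl
  rw [h1, add_dotProduct, dotProduct_add, dotProduct_add, smul_dotProduct, smul_dotProduct,
    smul_dotProduct, smul_dotProduct, dotProduct_smul, dotProduct_smul, dotProduct_smul,
    dotProduct_smul, dotProduct_comm (C i) (A i)]
  simp only [smul_eq_mul]
  ring

end alg

theorem NFP : St_NFP := by
  intro n hn F
  obtain ⟨ι, h1, h2, h3⟩ := D0 (k := n + 1) F.x F.hx
  obtain ⟨a, b, wt, D⟩ := exists_dat F ι h1 h2
  obtain ⟨O, s, hO, hOw⟩ := exists_orth (-wt)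
  set A0 : Matrix (Fin (n + 1)) (Fin (n + 1)) ℝ := Matrix.of fun j => (b j).ofLp with hA0
  set C0 : Matrix (Fin (n + 1)) (Fin (n + 1)) ℝ := Matrix.of fun j => (a j).ofLp with hC0
  have hOO : Oᵀ * O = 1 := mul_eq_one_comm.1 hO
  have hon0 : A0 * A0ᵀ + C0 * C0ᵀ + vecMulVec (-wt) (-wt) = 1 := by
    ext i j
    rw [Matrix.add_apply, Matrix.add_apply, Matrix.mul_apply', Matrix.mul_apply',
      vecMulVec_apply, Matrix.one_apply, ← D.on i j, inner_dot, inner_dot]
    simp only [Pi.neg_apply, neg_mul_neg]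
    rfl
  have hon1 : (O * A0) * (O * A0)ᵀ + (O * C0) * (O * C0)ᵀ + Matrix.single 0 0 (s ^ 2) = 1 := by
    have h4 := conj_add O (A0 * A0ᵀ) (C0 * C0ᵀ) (vecMulVec (-wt) (-wt))
    rw [hon0, Matrix.mul_one, hO, conj_vec, hOw, single_sq] at h4
    rw [transpose_mul, transpose_mul, h4]
    simp only [Matrix.mul_assoc]
  obtain ⟨c, σ, hcσ, hal, hhl⟩ := exists_half (∑ j : Fin n, (O * A0) j.succ ⬝ᵥ (O * A0) j.succ)
    (∑ j : Fin n, (O * C0) j.succ ⬝ᵥ (O * C0) j.succ)
    (∑ j : Fin n, (O * A0) j.succ ⬝ᵥ (O * C0) j.succ)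
  have hsum : ∑ j : Fin n, (O * A0) j.succ ⬝ᵥ (O * A0) j.succ +
      ∑ j : Fin n, (O * C0) j.succ ⬝ᵥ (O * C0) j.succ = n := by
    rw [← Finset.sum_add_distrib, Finset.sum_congr rfl fun j _ => gram_dot _ _ hon1 j]
    simp
  have hon : (c • (O * A0) + σ • (O * C0)) * (c • (O * A0) + σ • (O * C0))ᵀ +
      (-σ • (O * A0) + c • (O * C0)) * (-σ • (O * A0) + c • (O * C0))ᵀ +
      Matrix.single 0 0 (s ^ 2) = 1 := by
    rw [rot_gram _ _ hcσ]
    exact hon1
  let P : PA n :=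
    { A := c • (O * A0) + σ • (O * C0)
      C := -σ • (O * A0) + c • (O * C0)
      s := s
      on := hon
      al := by
        rw [Finset.sum_congr rfl fun j _ => rot_al (O * A0) (O * C0) c σ (Fin.succ j),
          Finset.sum_add_distrib, ← Finset.mul_sum, ← Finset.mul_sum, Finset.sum_sub_distrib]
        exact hal
      hl := by
        rw [Finset.sum_congr rfl fun j _ => rot_hl (O * A0) (O * C0) c σ (Fin.succ j),
          Finset.sum_add_distrib, Finset.sum_add_distrib, ← Finset.mul_sum, ← Finset.mul_sum,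
          ← Finset.mul_sum]
        rw [hsum] at hhl
        exact hhl }
  refine ⟨P, ?_, c, (-σ) • F.x + ι 0, ?_, ?_⟩
  · rw [gfr_eq D h3, gj_eq P]
    have h4 : ∫⁻ y : ℝ, ∫⁻ t : ℝ, ∫⁻ f : E (n + 1), Phi A0 C0 (-wt) y t f =
        ∫⁻ y : ℝ, ∫⁻ t : ℝ, ∫⁻ f : E (n + 1), Phi (O * A0) (O * C0) (O *ᵥ (-wt)) y t f :=
      lintegral_congr fun y => lintegral_congr fun t => lintegral_congr fun f =>
        (Phi_conj hO _ _ _ _ _ _).symm
    rw [h4, rot_int _ _ _ hcσ, hOw]
  · rw [map_zero, add_zero, norm_smul, F.hx, Real.norm_eq_abs, mul_one, sq_abs]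
    linear_combination hcσ
  · rw [D.gm]
    have h5 : (GG A0 C0 (-wt) (-σ) c (0 : E (n + 1)).ofLp).trace =
        (GG (O * A0) (O * C0) (O *ᵥ (-wt)) (-σ) c (0 : E (n + 1)).ofLp).trace := by
      rw [GG_conj, Matrix.trace_mul_comm, ← Matrix.mul_assoc, hOO, Matrix.one_mul]
    have h6 := GG_rot (O * A0) (O * C0) (O *ᵥ (-wt)) 0 1 (0 : E (n + 1)).ofLp hcσ
    have e1 : c * 0 - σ * 1 = -σ := by ring
    have e2 : σ * 0 + c * 1 = c := by ring
    rw [e1, e2] at h6
    rw [h5, h6, hOw]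
    have h7 : GG (c • (O * A0) + σ • (O * C0)) (-σ • (O * A0) + c • (O * C0))
        (s • (Pi.single 0 1 : Fin (n + 1) → ℝ)) 0 1 (0 : E (n + 1)).ofLp =
        (-σ • (O * A0) + c • (O * C0)) * (-σ • (O * A0) + c • (O * C0))ᵀ +
          Matrix.single 0 0 (s ^ 2) := by
      unfold GG
      have e3 : (0 : E (n + 1)).ofLp = 0 := rfl
      rw [e3, mulVec_zero, mulVec_zero, zero_smul, zero_smul, zero_add, one_smul, one_smul,
        zero_add, sub_zero, single_sq, vecMulVec_zero, add_zero]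
    rw [h7]
    have h8 := congrArg Matrix.trace hon
    rw [Matrix.trace_add, Matrix.trace_add, Matrix.trace_one, Fintype.card_fin] at h8
    rw [Matrix.trace_add]
    have h9 : ((c • (O * A0) + σ • (O * C0)) * (c • (O * A0) + σ • (O * C0))ᵀ).trace =
        P.tau + n * P.lam := by
      have hn0 : (n : ℝ) ≠ 0 := by
        have : n ≠ 0 := by omega
        exact_mod_cast this
      unfold PA.tau PA.lam
      rw [mul_div_cancel₀ _ hn0]
      unfold Matrix.trace
      rw [Fin.sum_univ_succ]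
      rfl
    rw [h9] at h8
    push_cast at h8
    linarith

end Pool.Agent.W253.ST
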